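import Mathlib
import Pool.Agent.H19.Zass

set_option autoImplicit false

namespace Pool.Agent.Results.MP_7bf690_al.RankSix

open scoped TensorProduct

open Pool.Agent.H19 Pool.Agent.H19.Zass in
/-- A strongly indecomposable torsion-free abelian group of rank at most 6 whose endomorphism ring
is non-commutative and centrally essential. -/
theorem result : ∃ (A : Type) (_ : AddCommGroup A),
    (∀ (n : ℤ) (x : A), n ≠ 0 → n • x = 0 → x = 0) ∧
    Module.rank ℚ (ℚ ⊗[ℤ] A) ≤ 6 ∧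
    (Nontrivial A ∧ ∀ (B C : AddSubgroup A) (n : ℕ), 0 < n → B ⊓ C = ⊥ →
      (∀ a : A, n • a ∈ B ⊔ C) → B = ⊥ ∨ C = ⊥) ∧
    (∃ a b : AddMonoid.End A, a * b ≠ b * a) ∧
    ∀ a : AddMonoid.End A, a ≠ 0 → ∃ x ∈ Subring.center (AddMonoid.End A),
      ∃ y ∈ Subring.center (AddMonoid.End A), x ≠ 0 ∧ y ≠ 0 ∧ a * x = y := by
  obtain ⟨G, h1, hG, ⟨e⟩⟩ := exG
  refine ⟨G, inferInstance, fun n x hn h => ?_, ?_, ⟨⟨⟨1, h1⟩, 0, fun h => ?_⟩, ?_⟩, ?_,
    (ce_R6.equiv e).out⟩
  · have h1 : (n : ℚ) • x.1 = 0 := by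
      rw [Int.cast_smul_eq_zsmul]
      exact congrArg Subtype.val h
    exact Subtype.ext ((smul_eq_zero.mp h1).resolve_left (by exact_mod_cast hn))
  · rw [(TensorProduct.isBaseChange ℤ G ℚ).rank_eq]
    exact (LinearMap.rank_le_of_injective G.subtype.toIntLinearMap Subtype.val_injective).trans
      rank_T.le
  · simpa [one_def] using congrArg (fun y : G => y.1 0) h
  · intro B C n hn hBC h
    choose b hb c hc hbc using fun a => AddSubgroup.mem_sup.mp (h a)
    have uniq : ∀ a, ∀ b' ∈ B, ∀ c' ∈ C, b' + c' = n • a → b a = b' := by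
      intro a b' hb' c' hc' h'
      have h2 : b a - b' = c' - c a := by
        rw [sub_eq_sub_iff_add_eq_add, hbc, ← h', add_comm]
      have h3 : b a - b' ∈ B ⊓ C := ⟨B.sub_mem (hb a) hb', h2 ▸ C.sub_mem hc' (hc a)⟩
      rwa [hBC, AddSubgroup.mem_bot, sub_eq_zero] at h3
    obtain ⟨r, -, hr⟩ := hG (AddMonoidHom.mk' b fun x y =>
      uniq _ _ (add_mem (hb x) (hb y)) _ (add_mem (hc x) (hc y)) (by
        rw [add_add_add_comm, hbc, hbc, smul_add]))
    by_cases h0 : r 0 = 0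
    · refine Or.inl (eq_bot_iff.mpr fun x hx => Subtype.ext (inj (c := r - n • 1) ?_ ?_))
      · rw [sub_app, nsmul_app, h0]
        simp [one_def, hn.ne']
      · rw [sub_mul, ← hr, smul_mul_assoc, one_mul, sub_eq_zero]
        exact congrArg Subtype.val (uniq x _ (nsmul_mem hx n) 0 (zero_mem _) (add_zero _))
    · refine Or.inr (eq_bot_iff.mpr fun x hx => Subtype.ext (inj h0 ?_))
      rw [← hr]
      exact congrArg Subtype.val (uniq x 0 (zero_mem _) _ (nsmul_mem hx n) (zero_add _))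
  · obtain ⟨a, b, h⟩ := noncomm
    exact ⟨e a, e b, fun h' => h (e.injective (by simpa using h'))⟩

end Pool.Agent.Results.MP_7bf690_al.RankSix
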